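import Pool.Agent.H63.WT.TA

/-!
# Board wit_modules, row MDS: the signed discriminant of a metabolic form
-/

set_option autoImplicit false

open Polynomial Matrix Pool.Agent.H63.WT

namespace Pool.Agent.H86.WT

namespace MDS

theorem det_J {F : Type} [Field F] (r : ℕ) :
    (fromBlocks 0 1 (-1) 0 : Matrix (Fin r ⊕ Fin r) (Fin r ⊕ Fin r) F).det = 1 := by
  have h1 : (fromBlocks 0 1 (-1) 0 : Matrix (Fin r ⊕ Fin r) (Fin r ⊕ Fin r) F) =
      fromBlocks 1 1 0 1 * fromBlocks 1 0 (-1) 1 * fromBlocks 1 1 0 1 := by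
    rw [fromBlocks_multiply, fromBlocks_multiply]
    simp
  rw [h1, det_mul, det_mul, det_fromBlocks_zero₂₁, det_fromBlocks_zero₁₂]
  simp

theorem det_block {F : Type} [Field F] {r : ℕ} (B C : Matrix (Fin r) (Fin r) F) :
    (fromBlocks 0 B Bᵀ C).det = (-1) ^ r * B.det ^ 2 := by
  have h1 : fromBlocks 0 B Bᵀ C * (fromBlocks 0 1 (-1) 0 : Matrix (Fin r ⊕ Fin r) (Fin r ⊕ Fin r) F)
      = fromBlocks (-B) 0 (-C) Bᵀ := by
    rw [fromBlocks_multiply]
    simp
  have h2 := congrArg Matrix.det h1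
  rw [det_mul, det_J, mul_one, det_fromBlocks_zero₁₂, det_neg, Fintype.card_fin,
    det_transpose] at h2
  rw [h2]
  ring

end MDS

theorem pf_MDS : T_MDS := by
  classical
  intro F _ _ ι _ _ A r hA hM hc
  obtain ⟨r', hr', b, hb, hb0⟩ := hM
  have hrr : r' = r := by omega
  subst hrr
  obtain ⟨J, _, c, hcb⟩ : ∃ (J : Type) (_ : Fintype J) (c : Module.Basis (Fin r' ⊕ J) F (ι → F)),
      ∀ i, c (Sum.inl i) = b i := by
    obtain ⟨W', hW⟩ := Submodule.exists_isCompl (Submodule.span F (Set.range b))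
    refine ⟨Fin (Module.finrank F W'), inferInstance,
      ((Module.Basis.span hb).prod (Module.finBasis F W')).map
        (Submodule.prodEquivOfIsCompl _ W' hW), ?_⟩
    intro i
    simp [Module.Basis.span_apply]
  have hJ : Fintype.card J = r' := by
    have h1 := Module.finrank_eq_card_basis c
    rw [Module.finrank_fintype_fun_eq_card, Fintype.card_sum, Fintype.card_fin, hr'] at h1
    omega
  let eJ : J ≃ Fin r' := Fintype.equivFinOfCardEq hJ
  let c' : Module.Basis (Fin r' ⊕ Fin r') F (ι → F) :=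
    c.reindex (Equiv.sumCongr (Equiv.refl _) eJ)
  have hc' : ∀ i, c' (Sum.inl i) = b i := by
    intro i
    rw [← hcb]
    simp [c']
  obtain ⟨e⟩ : Nonempty (ι ≃ Fin r' ⊕ Fin r') := by
    refine ⟨Fintype.equivOfCardEq ?_⟩
    rw [Fintype.card_sum, Fintype.card_fin, hr']
    omega
  obtain ⟨A', hA'⟩ : ∃ A' : Matrix (Fin r' ⊕ Fin r') (Fin r' ⊕ Fin r') F,
    A' = A.submatrix e.symm e.symm := ⟨_, rfl⟩
  obtain ⟨U, hU⟩ : ∃ U : Matrix (Fin r' ⊕ Fin r') (Fin r' ⊕ Fin r') F,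
    U = fun x i => c' x (e.symm i) := ⟨_, rfl⟩
  have hUdet : U.det ≠ 0 := by
    have h1 : LinearIndependent F U.row := by
      have h2 := c'.linearIndependent.map' (LinearEquiv.funCongrLeft F F e.symm).toLinearMap
        (LinearEquiv.ker _)
      rw [hU]
      exact h2
    rw [Matrix.linearIndependent_rows_iff_isUnit, Matrix.isUnit_iff_isUnit_det] at h1
    exact h1.ne_zero
  have hdA : A'.det = A.det := by
    rw [hA', det_submatrix_equiv_self]
  have hM : ∀ x y, (U * A' * Uᵀ) x y = c' x ⬝ᵥ (A *ᵥ c' y) := by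
    intro x y
    rw [Matrix.mul_assoc, Matrix.mul_apply, dotProduct, ← Equiv.sum_comp e.symm]
    refine Finset.sum_congr rfl fun i _ => ?_
    rw [hU, Matrix.mul_apply, mulVec, dotProduct, ← Equiv.sum_comp e.symm, hA']
    rfl
  have hsymm : ∀ u w : ι → F, u ⬝ᵥ (A *ᵥ w) = w ⬝ᵥ (A *ᵥ u) := by
    intro u w
    rw [dotProduct_mulVec, ← mulVec_transpose, hA.1, dotProduct_comm]
  have hblock : U * A' * Uᵀ = fromBlocks 0 (U * A' * Uᵀ).toBlocks₁₂ ((U * A' * Uᵀ).toBlocks₁₂)ᵀ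
      (U * A' * Uᵀ).toBlocks₂₂ := by
    conv_lhs => rw [← fromBlocks_toBlocks (U * A' * Uᵀ)]
    congr 1
    · ext i j
      change (U * A' * Uᵀ) (Sum.inl i) (Sum.inl j) = 0
      rw [hM, hc', hc']
      exact hb0 i j
    · ext i j
      change (U * A' * Uᵀ) (Sum.inr i) (Sum.inl j) = (U * A' * Uᵀ) (Sum.inl j) (Sum.inr i)
      rw [hM, hM]
      exact hsymm _ _
  have hdet := congrArg Matrix.det hblock
  rw [MDS.det_block, det_mul, det_mul, det_transpose, hdA] at hdet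
  refine ⟨(U * A' * Uᵀ).toBlocks₁₂.det / U.det, ?_⟩
  have hsg : ((-1 : F) ^ r') * (-1) ^ r' = 1 := by
    rw [← mul_pow]
    simp
  rw [div_mul_div_comm, eq_div_iff (mul_ne_zero hUdet hUdet)]
  calc (-1) ^ r' * A.det * (U.det * U.det) = (-1) ^ r' * (U.det * A.det * U.det) := by ring
    _ = (-1) ^ r' * ((-1) ^ r' * (U * A' * Uᵀ).toBlocks₁₂.det ^ 2) := by rw [hdet]
    _ = ((-1 : F) ^ r' * (-1) ^ r') * (U * A' * Uᵀ).toBlocks₁₂.det ^ 2 := by ring
    _ = _ := by rw [hsg]; ring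

end Pool.Agent.H86.WT
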