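import Pool.Agent.H63.WT.TB

/-!
# Board wit_modules, row EUC: Euler identities at rational points
-/

set_option autoImplicit false

open Polynomial Matrix Pool.Agent.H63.WT

namespace Pool.Agent.H86.WT

namespace EUC

/-- the values at a linear polynomial -/
theorem vals (hSSQ : T_SSQ) (hONE : T_ONE) {F : Type} [Field F] (h2 : (2 : F) ≠ 0) (m : F)
    (M0 A : F[X]) (t : F) (hm : m ≠ 0) (hA0 : eval t A ≠ 0) (hM0 : eval t M0 ≠ 0)
    (hsq : IsSquare (m * eval t M0)) :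
    S (X - C t) A = on (eval t A) ∧ S (X - C t) (C m * M0 * A) = on (eval t A) := by
  obtain ⟨-, h, -⟩ := hSSQ F h2 (X - C t) (monic_X_sub_C t)
  obtain ⟨h1, -, -, -⟩ := hONE F h2
  refine ⟨h t rfl A hA0, ?_⟩
  have h3 : eval t (C m * M0 * A) ≠ 0 := by
    rw [eval_mul, eval_mul, eval_C]
    exact mul_ne_zero (mul_ne_zero hm hM0) hA0
  rw [h t rfl _ h3]
  obtain ⟨s, hs⟩ := hsq
  have hs0 : s ≠ 0 := by
    rintro rfl
    rw [mul_zero] at hs
    exact mul_ne_zero hm hM0 hs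
  have h4 : eval t (C m * M0 * A) = eval t A * s ^ 2 := by
    rw [eval_mul, eval_mul, eval_C, hs]
    ring
  rw [h4]
  exact h1 _ _ hA0 hs0

theorem cop_lin {F : Type} [Field F] (A : F[X]) (t : F) (h : eval t A ≠ 0) :
    IsCoprime A (X - C t) := by
  rw [isCoprime_comm, (irreducible_X_sub_C t).coprime_iff_not_dvd, dvd_iff_isRoot]
  exact h

end EUC

theorem pf_EU5 (hEU1 : T_EU1) (hEU2 : T_EU2) (hSEU : T_SEU) (hSSQ : T_SSQ) (hONE : T_ONE) :
    T_EU5 := by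
  intro F _ h2 m M0 A t hm hM hM4 hA hAM hodd hA0 hM0 hsq
  obtain ⟨v1, v2⟩ := EUC.vals hSSQ hONE h2 m M0 A t hm hA0 hM0 hsq
  have hcA := EUC.cop_lin A t hA0
  have hcM := (EUC.cop_lin M0 t hM0).symm
  obtain ⟨e1, e2⟩ := hEU2 F h2 m M0 A (X - C t) hm hM hM4 hA (monic_X_sub_C t) hcA hAM hcM
  have e3 := hEU1 F h2 m M0 A hm hM hM4 hA hAM
  have e4 := hSEU F h2 A 1 hA one_ne_zero
  have hne : ¬ Even A.natDegree := Nat.not_even_iff_odd.mpr hodd
  have hev : Even (A.natDegree + (X - C t).natDegree) := by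
    rw [natDegree_X_sub_C]
    exact hodd.add_odd odd_one
  rw [if_pos hev] at e1 e2
  rw [if_neg hne] at e3 e4
  rw [C_1] at e4
  rw [v1] at e2
  rw [v2] at e1
  unfold sy
  have e5 : S A (C m * M0) = on m - G m M0 A := eq_sub_of_add_eq e3
  have e6 : S A (X - C t) = -on (eval t A) := eq_neg_of_add_eq_zero_left e2
  have e7 : S A (C m * M0 * (X - C t)) = -on (eval t A) - G m M0 (A * (X - C t)) := by
    rw [← sub_eq_zero, ← e1]
    abel
  rw [e4, e5, e6, e7]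
  abel

theorem pf_EU6 (hEU1 : T_EU1) (hEU2 : T_EU2) (hSEU : T_SEU) (hSSQ : T_SSQ) (hONE : T_ONE) :
    T_EU6 := by
  intro F _ h2 m M0 A t hm hmsq hM hM4 hA hAM heven hA0 hM0 hsq
  obtain ⟨v1, v2⟩ := EUC.vals hSSQ hONE h2 m M0 A t hm hA0 hM0 hsq
  have hcA := EUC.cop_lin A t hA0
  have hcM := (EUC.cop_lin M0 t hM0).symm
  obtain ⟨e1, e2⟩ := hEU2 F h2 m M0 A (X - C t) hm hM hM4 hA (monic_X_sub_C t) hcA hAM hcM
  have e3 := hEU1 F h2 m M0 A hm hM hM4 hA hAM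
  have e4 := hSEU F h2 A 1 hA one_ne_zero
  have hod : ¬ Even (A.natDegree + (X - C t).natDegree) := by
    rw [natDegree_X_sub_C, Nat.not_even_iff_odd]
    exact heven.add_odd odd_one
  rw [if_neg hod] at e1 e2
  rw [if_pos heven] at e3 e4
  rw [C_1] at e4
  rw [v1] at e2
  rw [v2] at e1
  have hom : on m = on (1 : F) := by
    obtain ⟨s, hs⟩ := hmsq
    have hs0 : s ≠ 0 := by
      rintro rfl
      rw [mul_zero] at hs
      exact hm hs
    have h3 := (hONE F h2).1 1 s one_ne_zero hs0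
    rw [one_mul] at h3
    rw [hs, ← pow_two]
    exact h3
  rw [hom] at e1
  unfold sy
  have e5 : S A (C m * M0) = - G m M0 A := eq_neg_of_add_eq_zero_left e3
  have e6 : S A (X - C t) = on 1 - on (eval t A) := eq_sub_of_add_eq e2
  have e7 : S A (C m * M0 * (X - C t)) =
      on 1 - on (eval t A) - G m M0 (A * (X - C t)) := by
    rw [← e1]
    abel
  rw [e4, e5, e6, e7]
  abel

theorem pf_EU7 (hEU1 : T_EU1) (hEU2 : T_EU2) (hSEU : T_SEU) (hSSQ : T_SSQ) (hONE : T_ONE) :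
    T_EU7 := by
  intro F _ h2 m M0 A B t hm hM hM4 hA hB hAB hABM hodd hA0 hM0 hsq
  have hAM : IsCoprime A M0 := hABM.of_mul_left_left
  rw [pf_EU5 hEU1 hEU2 hSEU hSSQ hONE F h2 m M0 A t hm hM hM4 hA hAM hodd hA0 hM0 hsq]
  have e3 := hEU1 F h2 m M0 A hm hM hM4 hA hAM
  have e4 := hSEU F h2 A 1 hA one_ne_zero
  have hne : ¬ Even A.natDegree := Nat.not_even_iff_odd.mpr hodd
  rw [if_neg hne] at e3 e4
  rw [C_1] at e4
  have e5 : S A (C m * M0) = on m - G m M0 A := eq_sub_of_add_eq e3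
  unfold qc sy
  rw [e4, e5]
  abel

end Pool.Agent.H86.WT
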