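import Pool.Agent.H63.WT.TC

/-!
# Board wit_modules, row IX1: there are no rational points
-/

set_option autoImplicit false

open Polynomial Matrix Pool.Agent.H63.WT

namespace Pool.Agent.H86.WT

theorem pf_IX1 (hALT : T_ALT) (hIOD : T_IOD) (hIEV : T_IEV) (hPTB : T_PTB) : T_IX1 := by
  intro F _ _ _ _ m M0 P1 P2 R1 R2 U1 U2 hDt hFail
  have hno : ∀ t : F, ¬ IsSquare (m * eval t M0) := by
    intro t ht
    rcases hALT F m M0 P1 P2 R1 R2 U1 U2 hDt hFail ⟨t, ht⟩ with h | h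
    · exact hIEV F m M0 P1 P2 R1 R2 U1 U2 hDt hFail ⟨t, ht⟩ h
    · exact hIOD F m M0 P1 P2 R1 R2 U1 U2 hDt hFail ⟨t, ht⟩ h
  refine ⟨fun hm => ?_, hno⟩
  obtain ⟨t, -, -, ht⟩ := (hPTB F m M0 hDt.m0 hDt.mon0 hDt.sep0 hDt.deg0).2 hm 0
  exact hno t ht

end Pool.Agent.H86.WT
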