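import Pool.Agent.H63.WT.TD

/-!
# Board wit_modules, row NRS: norms and resultants
-/

set_option autoImplicit false

open Polynomial Matrix Pool.Agent.H63.WT

namespace Pool.Agent.H86.WT

namespace NRS

theorem nn_prod (hGDT : T_GDT) (hNNR : T_NNR) {F : Type} [Field F] (s : Multiset F) (h : F[X]) :
    nn (s.map fun a => X - C a).prod h = (s.map fun a => eval a h).prod := by
  induction s using Multiset.induction_on with
  | empty =>
    rw [Multiset.map_zero, Multiset.map_zero, Multiset.prod_zero, Multiset.prod_zero]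
    unfold nn
    have h1 : IsEmpty (Fin (1 : F[X]).natDegree) := by
      rw [natDegree_one]
      infer_instance
    rw [Matrix.det_isEmpty, Matrix.det_isEmpty, mul_one]
  | cons a s ih =>
    rw [Multiset.map_cons, Multiset.map_cons, Multiset.prod_cons, Multiset.prod_cons,
      (hNNR F (X - C a) (s.map fun a => X - C a).prod (monic_X_sub_C a)
        (monic_multiset_prod_of_monic _ _ fun a _ => monic_X_sub_C a)).1, ih]
    congr 1
    exact (hGDT F (X - C a) (monic_X_sub_C a)).2.2.2.2.2.2 a rfl h

theorem nn_eq (hGDT : T_GDT) (hNNR : T_NNR) (hGMM : T_GMM) {F : Type} [Field F] (A h : F[X])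
    (hA : A.Monic) : nn A h = A.resultant h := by
  obtain ⟨φ, hφ⟩ : ∃ φ : F →+* A.SplittingField, φ = algebraMap F A.SplittingField := ⟨_, rfl⟩
  apply φ.injective
  have h1 := (hGMM F A.SplittingField φ A h hA).1
  rw [← h1]
  have hsp : (A.map φ).Splits := by
    rw [hφ]
    exact SplittingField.splits A
  have h2 : A.map φ = ((A.map φ).roots.map fun a => X - C a).prod :=
    hsp.eq_prod_roots_of_monic (hA.map φ)
  have h3 : nn (A.map φ) (h.map φ) = ((A.map φ).roots.map fun a => eval a (h.map φ)).prod := by
    conv_lhs => rw [h2]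
    exact nn_prod hGDT hNNR _ _
  have h4 : resultant (A.map φ) (h.map φ) A.natDegree h.natDegree = φ (A.resultant h) :=
    resultant_map_map _ _ _ _ _
  have h5 := resultant_eq_prod_eval (A.map φ) (h.map φ) h.natDegree natDegree_map_le hsp
  rw [(hA.map φ).leadingCoeff, one_pow, one_mul, hA.natDegree_map] at h5
  rw [h3, ← h4, h5]

end NRS

theorem pf_NRS (hGDT : T_GDT) (hNNR : T_NNR) (hGMM : T_GMM) : T_NRS := by
  intro F _ A h hA _
  rw [NRS.nn_eq hGDT hNNR hGMM A h hA]

end Pool.Agent.H86.WT
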