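import Pool.Agent.H63.WT.TA

/-!
# Board wit_modules, row NSQ: norms of squares
-/

set_option autoImplicit false

open Polynomial Matrix Pool.Agent.H63.WT

namespace Pool.Agent.H86.WT

theorem pf_NSQ (hGDT : T_GDT) : T_NSQ := by
  intro F _ A h h' z hA hc hc' hdvd
  obtain ⟨-, -, h3, h4, -, h6, -⟩ := hGDT F A hA
  have e1 : nn A h = nn A (h' * z ^ 2) := by
    unfold nn
    rw [h6 _ _ hdvd]
  have e2 : nn A h = nn A h' * nn A z ^ 2 := by
    rw [e1, h4, pow_two z, h4, pow_two]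
  have e3 : nn A h ≠ 0 := by
    unfold nn
    exact mul_ne_zero ((h3 h).mpr hc) ((h3 1).mpr isCoprime_one_right)
  have e4 : nn A z ≠ 0 := by
    intro h0
    rw [h0, pow_two, mul_zero, mul_zero] at e2
    exact e3 e2
  rw [e2]
  constructor
  · rintro ⟨s, hs⟩
    refine ⟨s / nn A z, ?_⟩
    field_simp
    rw [hs]
    ring
  · rintro ⟨s, hs⟩
    exact ⟨s * nn A z, by rw [hs]; ring⟩

end Pool.Agent.H86.WT
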