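import Pool.Agent.H63.WT.TD

/-!
# Board wit_modules, row RSG: the Witt group of the real numbers
-/

set_option autoImplicit false

open Polynomial Matrix Pool.Agent.H63.WT

namespace Pool.Agent.H86.WT

namespace RSG

/-- a multiple of `<1>` which is zero -/
theorem on_one_ne (hW0 : T_W0) (hONE : T_ONE) (n : ℕ) (h : n • (on (1 : ℝ)) = 0) : n = 0 := by
  have h2 : (2 : ℝ) ≠ 0 := two_ne_zero
  obtain ⟨-, -, h3, -⟩ := hONE ℝ h2
  have h4 := h3 (Fin n) (fun _ => 1) (fun _ => one_ne_zero)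
  rw [Finset.sum_const, Finset.card_univ, Fintype.card_fin, h] at h4
  have hSN : SN (Matrix.diagonal (fun _ : Fin n => (1 : ℝ))) := by
    refine ⟨Matrix.isSymm_diagonal _, ?_⟩
    rw [Matrix.det_diagonal]
    simp
  obtain ⟨r, hr, b, hb, hb0⟩ := hW0 ℝ h2 (Fin n) _ hSN h4
  rcases Nat.eq_zero_or_pos r with h5 | h5
  · rw [h5, Fintype.card_fin] at hr
    omega
  · exfalso
    have h6 := hb0 ⟨0, h5⟩ ⟨0, h5⟩
    have h7 := hb.ne_zero ⟨0, h5⟩
    apply h7
    have h8 : Matrix.diagonal (fun _ : Fin n => (1 : ℝ)) = 1 := Matrix.diagonal_one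
    rw [h8, Matrix.one_mulVec] at h6
    exact dotProduct_self_eq_zero.mp h6

theorem on_eq (hONE : T_ONE) (a : ℝ) (ha : a ≠ 0) :
    on a = (if 0 < a then (1 : ℤ) else -1) • on (1 : ℝ) := by
  obtain ⟨h1, h2, -, -⟩ := hONE ℝ two_ne_zero
  split_ifs with h
  · rw [one_smul]
    have h3 := h1 1 (Real.sqrt a) one_ne_zero (Real.sqrt_ne_zero'.mpr h)
    rw [Real.sq_sqrt h.le, one_mul] at h3
    exact h3
  · have h4 : 0 < -a := by
      rcases lt_trichotomy a 0 with h5 | h5 | h5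
      · linarith
      · exact absurd h5 ha
      · exact absurd h5 h
    have h3 := h1 1 (Real.sqrt (-a)) one_ne_zero (Real.sqrt_ne_zero'.mpr h4)
    rw [Real.sq_sqrt h4.le, one_mul] at h3
    have h5 := h2 (-a) (neg_ne_zero.mpr ha)
    rw [neg_neg] at h5
    rw [h5, h3, neg_smul, one_smul]

end RSG

theorem pf_RSG (hW0 : T_W0) (hCLS : T_CLS) (hONE : T_ONE) (hI2D : T_I2D) : T_RSG := by
  classical
  have h2 : (2 : ℝ) ≠ 0 := two_ne_zero
  have hinj : Function.Injective (zmultiplesHom (WG ℝ) (on (1 : ℝ))) := by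
    rw [injective_iff_map_eq_zero]
    intro m hm
    rw [zmultiplesHom_apply] at hm
    rcases Int.natAbs_eq m with h | h
    · rw [h, natCast_zsmul] at hm
      have := RSG.on_one_ne hW0 hONE _ hm
      omega
    · rw [h, neg_smul, natCast_zsmul, neg_eq_zero] at hm
      have := RSG.on_one_ne hW0 hONE _ hm
      omega
  obtain ⟨-, -, hdiag, hall⟩ := hONE ℝ h2
  have hsurj : Function.Surjective (zmultiplesHom (WG ℝ) (on (1 : ℝ))) := by
    intro x
    obtain ⟨n, a, ha, rfl⟩ := hall x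
    refine ⟨∑ i, if 0 < a i then (1 : ℤ) else -1, ?_⟩
    rw [zmultiplesHom_apply, Finset.sum_smul]
    exact Finset.sum_congr rfl fun i _ => (RSG.on_eq hONE (a i) (ha i)).symm
  let E : ℤ ≃+ WG ℝ := AddEquiv.ofBijective _ ⟨hinj, hsurj⟩
  have hE : ∀ m : ℤ, E m = m • on (1 : ℝ) := fun m => rfl
  have hs : ∀ a : ℝ, a ≠ 0 → E.symm (on a) = if 0 < a then 1 else -1 := by
    intro a ha
    rw [AddEquiv.symm_apply_eq, hE]
    exact RSG.on_eq hONE a ha
  refine ⟨E.symm.toAddMonoidHom, hs, E.symm.injective, ?_⟩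
  intro x hx
  obtain ⟨m, hm⟩ : ∃ m : ℤ, m = E.symm x := ⟨_, rfl⟩
  have hxm : m • on (1 : ℝ) = x := by
    rw [← hE, hm, AddEquiv.apply_symm_apply]
  change (4 : ℤ) ∣ E.symm x
  rw [← hm]
  obtain ⟨c, hc, hc0, hcm⟩ : ∃ c : ℝ, (c = 1 ∨ c = -1) ∧ c ≠ 0 ∧
      m.natAbs • on c = m • on (1 : ℝ) := by
    rcases Int.natAbs_eq m with h | h
    · refine ⟨1, Or.inl rfl, one_ne_zero, ?_⟩
      conv_rhs => rw [h]
      rw [natCast_zsmul]
    · refine ⟨-1, Or.inr rfl, by norm_num, ?_⟩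
      conv_rhs => rw [h]
      rw [RSG.on_eq hONE (-1) (by norm_num), if_neg (by norm_num), neg_smul, one_smul, neg_smul,
        natCast_zsmul, smul_neg]
  obtain ⟨B, hB⟩ : ∃ B : Matrix (Fin m.natAbs) (Fin m.natAbs) ℝ,
    B = Matrix.diagonal (fun _ => c) := ⟨_, rfl⟩
  have hBdet : B.det = c ^ m.natAbs := by
    rw [hB, Matrix.det_diagonal, Finset.prod_const, Finset.card_univ, Fintype.card_fin]
  have hBSN : SN B := by
    refine ⟨?_, ?_⟩
    · rw [hB]
      exact Matrix.isSymm_diagonal _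
    · rw [hBdet]
      exact pow_ne_zero _ hc0
  have hBx : cls B = x := by
    rw [hB, hdiag (Fin m.natAbs) (fun _ => c) (fun _ => hc0), Finset.sum_const, Finset.card_univ,
      Fintype.card_fin, hcm, hxm]
  obtain ⟨hC1, hC2, -, hC4, -⟩ := hCLS ℝ h2
  obtain ⟨n, A, hA, hAs, hxA⟩ := hx
  have hBn : SN (-B) := by
    refine ⟨?_, ?_⟩
    · exact hBSN.1.neg
    · rw [Matrix.det_neg]
      exact mul_ne_zero (pow_ne_zero _ (by norm_num)) hBSN.2
  have hsum : cls (fromBlocks A 0 0 (-B)) = 0 := by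
    rw [hC2 _ _ A (-B) hA hBn, hC4 _ B hBSN, hBx, ← hxA, add_neg_cancel]
  have hSNs : SN (fromBlocks A 0 0 (-B)) := by
    refine ⟨?_, ?_⟩
    · unfold Matrix.IsSymm
      rw [Matrix.fromBlocks_transpose, hA.1, hBn.1, Matrix.transpose_zero, Matrix.transpose_zero]
    · rw [Matrix.det_fromBlocks_zero₂₁]
      exact mul_ne_zero hA.2 hBn.2
  obtain ⟨r, hr, -⟩ := hW0 ℝ h2 _ _ hSNs hsum
  rw [Fintype.card_sum, Fintype.card_fin, Fintype.card_fin] at hr
  have hev : m.natAbs = 2 * (r - n) := by omega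
  have hIx : I2 (cls B) := by
    rw [hBx, hxA]
    exact ⟨n, A, hA, hAs, rfl⟩
  have hsq := (hI2D ℝ h2 (Fin m.natAbs) B (r - n) hBSN (by rw [Fintype.card_fin, hev])).mp hIx
  rw [hBdet, hev, pow_mul] at hsq
  have hc2 : c ^ 2 = 1 := by
    rcases hc with h | h <;> rw [h] <;> norm_num
  rw [hc2, one_pow, mul_one] at hsq
  have hev2 : Even (r - n) := by
    by_contra hodd
    rw [Nat.not_even_iff_odd] at hodd
    rw [hodd.neg_one_pow] at hsq
    obtain ⟨y, hy⟩ := hsq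
    nlinarith [mul_self_nonneg y]
  obtain ⟨q, hq⟩ := hev2
  rw [← Int.natAbs_dvd_natAbs, hev, hq]
  exact ⟨q, by simp; ring⟩

end Pool.Agent.H86.WT
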