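import Pool.Agent.H63.WT.TD

/-!
# Board wit_modules, row SGN: the signs
-/

set_option autoImplicit false

open Polynomial Matrix Pool.Agent.H63.WT

namespace Pool.Agent.H86.WT

theorem pf_SGN (hHPR : T_HPR) (hPHI : T_PHI) (hSSQ : T_SSQ) (hCAD : T_CAD) (hIV : T_IV)
    (hEU9 : T_EU9) : T_SGN := by
  intro F _ _ hLA P1 P2 R1 U1 M D z G' hP1 hP2 hR1 hU1 hRU hsep hcM hSq hnn hcD hcz hdvd hG' hodd
    hcG hcc
  have h2 : (2 : F) ≠ 0 := hLA.1
  obtain ⟨hNI, hnsq⟩ := hLA.2 F inferInstance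
  have hsep1 : P1.Separable := hsep.of_mul_left
  have hc12 : IsCoprime P1 P2 := Polynomial.Separable.isCoprime hsep
  have hD1 : IsCoprime P1 D := hcD.of_mul_left_left
  have hM1 : IsCoprime P1 M := hcM.of_mul_left_left
  have hG1 : IsCoprime P1 G' := hcG.symm
  have hdvd1 : P1 ∣ M - D * z ^ 2 := (Dvd.intro _ rfl).trans hdvd
  obtain ⟨hS, -, -⟩ := hSSQ F h2 P1 hP1
  obtain ⟨-, -, hpr1⟩ := hHPR F hLA P1 G' D hP1 hsep1 hG1 hD1
  have e1 : S P1 M = S P1 D := hS M D z hM1 hD1 hdvd1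
  have e2 : S P1 (M * G') = S P1 (D * G') := by
    refine hS _ _ z (hM1.mul_right hG1) (hD1.mul_right hG1) ?_
    have h3 : M * G' - D * G' * z ^ 2 = (M - D * z ^ 2) * G' := by ring
    rw [h3]
    exact hdvd1.mul_right _
  have e3 : S P1 (M * P2) = S P1 (D * P2) := by
    refine hS _ _ z (hM1.mul_right hc12) (hD1.mul_right hc12) ?_
    have h3 : M * P2 - D * P2 * z ^ 2 = (M - D * z ^ 2) * P2 := by ring
    rw [h3]
    exact hdvd1.mul_right _
  have e4 : sy P1 G' D = sy P1 M G' := by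
    unfold sy
    rw [e1, e2, mul_comm G' D]
    abel
  obtain ⟨-, -, -, hsy⟩ := hCAD F hLA P1 P2 R1 U1 M hP1 hP2 hR1 hU1 hRU hsep hcM hSq hnn
  have e5 : sy P1 M G' = sy R1 M G' := hsy G' hG1
  have hI2 : I2 (qc P1 P2 M) := ((hEU9 F h2).2.1 P1 P2 M hP1 hc12 hM1).mpr hnn
  have h2q : qc P1 P2 M + qc P1 P2 M = 0 := (hIV F h2 hNI hnsq).1 _ hI2
  have hdeg : G'.natDegree • qc P1 P2 M = qc P1 P2 M := by
    obtain ⟨n, hn⟩ := hodd
    rw [hn, add_smul, one_smul, mul_comm, mul_smul, two_smul, h2q, smul_zero, zero_add]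
  have e6 : qc P1 P2 M + sy R1 M G' = 0 := by
    unfold cc at hcc
    rw [hdeg] at hcc
    exact hcc
  have e7 : cls (Phi P1 P2 D) = qc P1 P2 M := by
    rw [(hPHI F h2 P1 P2 D hP1 hc12 hD1).2.1]
    unfold qc
    rw [e3]
  rw [hpr1, e4, e5, e7]
  constructor
  · intro h
    rw [h, add_zero] at e6
    exact e6
  · intro h
    rw [h, zero_add] at e6
    exact e6

end Pool.Agent.H86.WT
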